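import Mathlib.Data.Fintype.Perm
import Mathlib.Algebra.BigOperators.Ring.Finset
import Mathlib.Algebra.Order.BigOperators.Ring.Finset
import Mathlib.Algebra.Order.BigOperators.Group.Finset
import Mathlib.Data.Real.Basic
import Mathlib.Logic.Equiv.Basic
import Mathlib.Tactic

/-!
# The assignment lemma

A counting form of the lopsided local lemma for products of symmetric groups, and the assignment
lemma for row-Latin rectangles: the rows of cells may be forgotten (only the types (column, symbol)
count), whatever the sections look like.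
-/

open Finset

set_option autoImplicit false
set_option linter.unusedSectionVars false

namespace Pool.Agent.RL84

open Classical in
/-- The points which avoid all events of `T`. -/
noncomputable def av {Ω J : Type*} [Fintype Ω] (B : J → Ω → Prop) (T : Finset J) : Finset Ω :=
  univ.filter fun ω => ∀ j ∈ T, ¬ B j ω

section LLL

variable {Ω J : Type*} [Fintype Ω] {B : J → Ω → Prop}

theorem mem_av {T : Finset J} {ω : Ω} : ω ∈ av B T ↔ ∀ j ∈ T, ¬ B j ω := by
  simp [av]

open Classical in
theorem lll_claim (adj : J → J → Prop) (P : J → ℝ) (hP0 : ∀ j, 0 ≤ P j)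
    (hlop : ∀ (j : J) (T : Finset J), (∀ t ∈ T, ¬ adj j t) →
      (((av B T).filter (B j)).card : ℝ) ≤ P j * (av B T).card)
    (hsum : ∀ (j : J) (T : Finset J), (∀ t ∈ T, adj j t) → ∑ t ∈ T, P t ≤ 1 / 4) :
    ∀ (n : ℕ) (T : Finset J), T.card = n → ∀ j, j ∉ T →
      (((av B T).filter (B j)).card : ℝ) ≤ 2 * P j * (av B T).card := by
  intro n
  induction n using Nat.strong_induction_on with
  | _ n ih =>
    intro T hT j hj
    set T1 := T.filter fun t => adj j t with hT1
    set T2 := T.filter fun t => ¬ adj j t with hT2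
    have hsub : av B T ⊆ av B T2 := by
      intro ω hω
      rw [mem_av] at hω ⊢
      exact fun t ht => hω t (mem_filter.1 ht).1
    have h1 : (((av B T).filter (B j)).card : ℝ) ≤ ((av B T2).filter (B j)).card := by
      exact_mod_cast card_le_card (filter_subset_filter _ hsub)
    have h2 := hlop j T2 (fun t ht => (mem_filter.1 ht).2)
    have h3 : ((av B T2).card : ℝ) ≤ 2 * (av B T).card := by
      rcases T1.eq_empty_or_nonempty with h4 | h4
      · have h5 : T2 = T := by
          rw [hT2, filter_eq_self]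
          intro t ht h6
          have : t ∈ T1 := mem_filter.2 ⟨ht, h6⟩
          rw [h4] at this
          exact absurd this (notMem_empty _)
        rw [h5]
        have : (0 : ℝ) ≤ (av B T).card := Nat.cast_nonneg _
        linarith
      · have hlt : T2.card < n := by
          rw [← hT]
          refine card_lt_card ⟨filter_subset _ _, fun h5 => ?_⟩
          obtain ⟨t, ht⟩ := h4
          have h6 := (mem_filter.1 ht)
          exact (mem_filter.1 (h5 h6.1)).2 h6.2
        have h5 : av B T2 ⊆ av B T ∪ T1.biUnion fun t => (av B T2).filter (B t) := by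
          intro ω hω
          by_cases h6 : ω ∈ av B T
          · exact mem_union_left _ h6
          · refine mem_union_right _ ?_
            rw [mem_av] at h6
            push Not at h6
            obtain ⟨t, ht, h7⟩ := h6
            refine mem_biUnion.2 ⟨t, ?_, mem_filter.2 ⟨hω, h7⟩⟩
            by_contra h8
            have h9 : t ∈ T2 := mem_filter.2 ⟨ht, fun h10 => h8 (mem_filter.2 ⟨ht, h10⟩)⟩
            exact mem_av.1 hω t h9 h7
        have h6 : ((av B T2).card : ℝ) ≤ (av B T).card +
            ∑ t ∈ T1, (((av B T2).filter (B t)).card : ℝ) := by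
          have h7 := (card_le_card h5).trans ((card_union_le _ _).trans
            (Nat.add_le_add_left card_biUnion_le _))
          exact_mod_cast h7
        have h7 : ∑ t ∈ T1, (((av B T2).filter (B t)).card : ℝ) ≤
            ∑ t ∈ T1, 2 * P t * (av B T2).card := by
          refine sum_le_sum fun t ht => ih _ hlt T2 rfl t ?_
          intro h8
          exact (mem_filter.1 h8).2 (mem_filter.1 ht).2
        have h8 : ∑ t ∈ T1, 2 * P t * ((av B T2).card : ℝ) =
            2 * (∑ t ∈ T1, P t) * (av B T2).card := by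
          rw [mul_sum, sum_mul]
        have h9 := hsum j T1 (fun t ht => (mem_filter.1 ht).2)
        have h10 : (0 : ℝ) ≤ (av B T2).card := Nat.cast_nonneg _
        have h11 : 2 * (∑ t ∈ T1, P t) * ((av B T2).card : ℝ) ≤ 1 / 2 * (av B T2).card :=
          mul_le_mul_of_nonneg_right (by linarith) h10
        linarith
    have h4 := mul_le_mul_of_nonneg_left h3 (hP0 j)
    linarith

open Classical in
/-- The lopsided local lemma, counting form. -/
theorem lll [Nonempty Ω] [Fintype J] (adj : J → J → Prop) (P : J → ℝ) (hP0 : ∀ j, 0 ≤ P j)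
    (hP1 : ∀ j, P j ≤ 1 / 4)
    (hlop : ∀ (j : J) (T : Finset J), (∀ t ∈ T, ¬ adj j t) →
      (((av B T).filter (B j)).card : ℝ) ≤ P j * (av B T).card)
    (hsum : ∀ (j : J) (T : Finset J), (∀ t ∈ T, adj j t) → ∑ t ∈ T, P t ≤ 1 / 4) :
    ∃ ω, ∀ j, ¬ B j ω := by
  have key : ∀ T : Finset J, 0 < (av B T).card := by
    intro T
    induction T using Finset.induction_on with
    | empty =>
      obtain ⟨ω⟩ := ‹Nonempty Ω›
      exact card_pos.2 ⟨ω, mem_av.2 fun j hj => absurd hj (notMem_empty _)⟩
    | insert t T ht ih =>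
      have h1 : av B T ⊆ av B (insert t T) ∪ (av B T).filter (B t) := by
        intro ω hω
        by_cases h2 : B t ω
        · exact mem_union_right _ (mem_filter.2 ⟨hω, h2⟩)
        · refine mem_union_left _ (mem_av.2 fun j hj => ?_)
          rcases mem_insert.1 hj with rfl | hj
          · exact h2
          · exact mem_av.1 hω j hj
      have h2 : ((av B T).card : ℝ) ≤ (av B (insert t T)).card +
          ((av B T).filter (B t)).card := by
        exact_mod_cast (card_le_card h1).trans (card_union_le _ _)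
      have h3 := lll_claim adj P hP0 hlop hsum _ T rfl t ht
      have h4 : (0 : ℝ) < (av B T).card := by exact_mod_cast ih
      have h5 : 2 * P t * ((av B T).card : ℝ) ≤ 1 / 2 * (av B T).card :=
        mul_le_mul_of_nonneg_right (by linarith [hP1 t]) h4.le
      have h6 : (0 : ℝ) < (av B (insert t T)).card := by linarith
      exact_mod_cast h6
  obtain ⟨ω, hω⟩ := card_pos.1 (key univ)
  exact ⟨ω, fun j => mem_av.1 hω j (mem_univ _)⟩

end LLL

section Assign

variable {R V S Sec : Type*} [Fintype R] [DecidableEq R] [Fintype V] [DecidableEq V]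
  [DecidableEq S]

/-- The number of rows with the symbol `y` in the column `v`. -/
def lam (a : R → V → S) (v : V) (y : S) : ℕ := (univ.filter fun r => a r v = y).card

theorem lam_pos (a : R → V → S) (r : R) (v : V) : 0 < lam a v (a r v) :=
  card_pos.2 ⟨r, by simp⟩

/-- Valid indices of events. -/
def Valid (a : R → V → S) (sg : V → R → Option Sec) (t : R × (V × R) × (V × R)) : Prop :=
  t.2.1.1 ≠ t.2.2.1 ∧ a t.2.1.2 t.2.1.1 = a t.1 t.2.1.1 ∧ a t.2.2.2 t.2.2.1 = a t.1 t.2.2.1 ∧
    ∃ s, sg t.2.1.1 t.2.1.2 = some s ∧ sg t.2.2.1 t.2.2.2 = some s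

open Classical in
/-- The probabilities of the events. -/
noncomputable def Pr (a : R → V → S) (sg : V → R → Option Sec)
    (t : R × (V × R) × (V × R)) : ℝ :=
  if Valid a sg t then 1 / ((lam a t.2.1.1 (a t.1 t.2.1.1) : ℝ) * lam a t.2.2.1 (a t.1 t.2.2.1))
  else 0

theorem Pr_nonneg (a : R → V → S) (sg : V → R → Option Sec) (t : R × (V × R) × (V × R)) :
    0 ≤ Pr a sg t := by
  unfold Pr
  split
  · positivity
  · exact le_refl _

theorem Pr_symm (a : R → V → S) (sg : V → R → Option Sec) (r : R) (x y : V × R) :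
    Pr a sg (r, x, y) = Pr a sg (r, y, x) := by
  have h : Valid a sg (r, x, y) ↔ Valid a sg (r, y, x) := by
    constructor
    · rintro ⟨h1, h2, h3, s, h4, h5⟩
      exact ⟨h1.symm, h3, h2, s, h5, h4⟩
    · rintro ⟨h1, h2, h3, s, h4, h5⟩
      exact ⟨h1.symm, h3, h2, s, h5, h4⟩
  unfold Pr
  by_cases h' : Valid a sg (r, x, y)
  · rw [if_pos h', if_pos (h.1 h')]
    simp only [mul_comm]
  · rw [if_neg h', if_neg (fun h2 => h' (h.2 h2))]

variable {a : R → V → S} {sg : V → R → Option Sec}

/-- For each first slot there is at most one second slot in a given column. -/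
theorem sum_second (hsg : ∀ v p q s, sg v p = some s → sg v q = some s → p = q)
    (r : R) (v : V) (p : R) (w : V) :
    ∑ x, Pr a sg (r, (v, p), (w, x)) ≤
      if a p v = a r v then 1 / ((lam a v (a r v) : ℝ) * lam a w (a r w)) else 0 := by
  classical
  by_cases h : a p v = a r v
  · rw [if_pos h]
    set c := 1 / ((lam a v (a r v) : ℝ) * lam a w (a r w)) with hc
    have hc0 : 0 ≤ c := by positivity
    have h1 : ∀ x, Pr a sg (r, (v, p), (w, x)) =
        if Valid a sg (r, (v, p), (w, x)) then c else 0 := fun x => rfl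
    simp only [h1]
    rw [← sum_filter, sum_const, nsmul_eq_mul]
    have h2 : ((univ.filter fun x => Valid a sg (r, (v, p), (w, x))).card : ℝ) ≤ 1 := by
      have : (univ.filter fun x => Valid a sg (r, (v, p), (w, x))).card ≤ 1 := by
        rw [card_le_one]
        intro x hx y hy
        obtain ⟨-, -, -, s, h3, h4⟩ := (mem_filter.1 hx).2
        obtain ⟨-, -, -, s', h5, h6⟩ := (mem_filter.1 hy).2
        simp only at h3 h4 h5 h6
        have h7 : s = s' := by
          rw [h3] at h5
          exact Option.some.inj h5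
        subst h7
        exact hsg _ _ _ _ h4 h6
      exact_mod_cast this
    calc _ ≤ 1 * c := mul_le_mul_of_nonneg_right h2 hc0
      _ = c := one_mul c
  · rw [if_neg h]
    refine le_of_eq (sum_eq_zero fun x _ => ?_)
    unfold Pr
    rw [if_neg]
    rintro ⟨-, h2, -⟩
    exact h h2

theorem sum_row (hsg : ∀ v p q s, sg v p = some s → sg v q = some s → p = q) {c : ℝ}
    (h : ∀ r, ∑ v, 1 / (lam a v (a r v) : ℝ) ≤ c) (r : R) (v : V) :
    ∑ p, ∑ w, ∑ x, Pr a sg (r, (v, p), (w, x)) ≤ c := by
  have h1 : ∑ p, ∑ w, ∑ x, Pr a sg (r, (v, p), (w, x)) ≤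
      ∑ p, ∑ w, if a p v = a r v then 1 / ((lam a v (a r v) : ℝ) * lam a w (a r w)) else 0 :=
    sum_le_sum fun p _ => sum_le_sum fun w _ => sum_second hsg r v p w
  refine h1.trans ?_
  rw [sum_comm]
  refine le_trans (sum_le_sum fun w _ => ?_) (h r)
  rw [← sum_filter, sum_const, nsmul_eq_mul]
  have h2 : (0 : ℝ) < lam a v (a r v) := by exact_mod_cast lam_pos a r v
  have h3 : (0 : ℝ) < lam a w (a r w) := by exact_mod_cast lam_pos a r w
  refine le_of_eq ?_
  change (lam a v (a r v) : ℝ) * _ = _
  field_simp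

theorem sum_slot (hsg : ∀ v p q s, sg v p = some s → sg v q = some s → p = q) {c : ℝ}
    (h : ∀ r, ∑ v, 1 / (lam a v (a r v) : ℝ) ≤ c) (v : V) (p : R) :
    ∑ r, ∑ w, ∑ x, Pr a sg (r, (v, p), (w, x)) ≤ c := by
  have h1 : ∑ r, ∑ w, ∑ x, Pr a sg (r, (v, p), (w, x)) ≤
      ∑ r, ∑ w, if a p v = a r v then 1 / ((lam a v (a r v) : ℝ) * lam a w (a r w)) else 0 :=
    sum_le_sum fun r _ => sum_le_sum fun w _ => sum_second hsg r v p w
  refine h1.trans ?_
  have h2 : (0 : ℝ) < lam a v (a p v) := by exact_mod_cast lam_pos a p v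
  have h3 : ∀ r, (∑ w, if a p v = a r v then
      1 / ((lam a v (a r v) : ℝ) * lam a w (a r w)) else 0) ≤
      if a r v = a p v then 1 / (lam a v (a p v) : ℝ) * c else 0 := by
    intro r
    by_cases h4 : a p v = a r v
    · simp only [if_pos h4, if_pos h4.symm]
      rw [← h4]
      have h5 : ∀ w, 1 / ((lam a v (a p v) : ℝ) * lam a w (a r w)) =
          1 / (lam a v (a p v) : ℝ) * (1 / (lam a w (a r w) : ℝ)) := by
        intro w
        rw [one_div_mul_one_div]
      simp only [h5]
      rw [← mul_sum]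
      exact mul_le_mul_of_nonneg_left (h r) (by positivity)
    · simp only [if_neg h4, if_neg (Ne.symm h4), sum_const_zero]
      exact le_refl _
  refine (sum_le_sum fun r _ => h3 r).trans ?_
  rw [← sum_filter, sum_const, nsmul_eq_mul]
  refine le_of_eq ?_
  change (lam a v (a p v) : ℝ) * _ = _
  field_simp

/-- Adjacency of events: a common pair (row, column) or a common slot (column, row). -/
def Adj (j t : R × (V × R) × (V × R)) : Prop :=
  (t.1 = j.1 ∧ t.2.1.1 = j.2.1.1) ∨ (t.1 = j.1 ∧ t.2.1.1 = j.2.2.1) ∨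
  (t.1 = j.1 ∧ t.2.2.1 = j.2.1.1) ∨ (t.1 = j.1 ∧ t.2.2.1 = j.2.2.1) ∨
  t.2.1 = j.2.1 ∨ t.2.1 = j.2.2 ∨ t.2.2 = j.2.1 ∨ t.2.2 = j.2.2

theorem filter_row_first (P : R × (V × R) × (V × R) → ℝ) (r : R) (v : V) :
    ∑ t with t.1 = r ∧ t.2.1.1 = v, P t = ∑ p, ∑ w, ∑ x, P (r, (v, p), (w, x)) := by
  rw [sum_filter]
  simp only [Fintype.sum_prod_type, ite_and]
  rw [Finset.sum_eq_single r]
  · rw [Finset.sum_eq_single v]
    · simp
    · intro w _ hw
      simp [hw]
    · intro hv
      exact absurd (mem_univ _) hv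
  · intro r' _ hr
    simp [hr]
  · intro hr
    exact absurd (mem_univ _) hr

theorem filter_symm (P : R × (V × R) × (V × R) → ℝ) (hP : ∀ r x y, P (r, x, y) = P (r, y, x))
    (Q : R × (V × R) × (V × R) → Prop) [DecidablePred Q] :
    ∑ t with Q (t.1, t.2.2, t.2.1), P t = ∑ t with Q t, P t := by
  rw [sum_filter, sum_filter,
    ← Equiv.sum_comp (Equiv.prodCongr (Equiv.refl R) (Equiv.prodComm (V × R) (V × R)))
      (fun t => if Q t then P t else 0)]
  refine sum_congr rfl fun t _ => ?_
  obtain ⟨r, x, y⟩ := t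
  simp only [Equiv.prodCongr_apply, Prod.map_apply, Equiv.refl_apply, Equiv.prodComm_apply,
    Prod.swap_prod_mk, hP r y x]

theorem filter_slot_first (P : R × (V × R) × (V × R) → ℝ) (v : V) (p : R) :
    ∑ t with t.2.1 = (v, p), P t = ∑ r, ∑ w, ∑ x, P (r, (v, p), (w, x)) := by
  rw [sum_filter, Fintype.sum_prod_type]
  refine sum_congr rfl fun r _ => ?_
  rw [Fintype.sum_prod_type, Finset.sum_eq_single (v, p)]
  · simp only [if_true, Fintype.sum_prod_type]
  · intro x _ hx
    simp [hx]
  · intro hx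
    exact absurd (mem_univ _) hx

open Classical in
theorem sum_cover {J : Type*} [Fintype J] {ι : Type*} [Fintype ι] (f : J → ℝ)
    (hf : ∀ t, 0 ≤ f t) (A : ι → J → Prop) (T : Finset J) (h : ∀ t ∈ T, ∃ i, A i t) :
    ∑ t ∈ T, f t ≤ ∑ i, ∑ t with A i t, f t := by
  have h1 : ∀ t ∈ T, f t ≤ ∑ i, if A i t then f t else 0 := by
    intro t ht
    obtain ⟨i, hi⟩ := h t ht
    have h2 : (if A i t then f t else 0) ≤ ∑ i, if A i t then f t else 0 :=
      single_le_sum (f := fun i => if A i t then f t else 0)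
        (fun i _ => by
          by_cases h3 : A i t
          · simp only [if_pos h3]; exact hf t
          · simp only [if_neg h3]; exact le_refl _) (mem_univ i)
    rwa [if_pos hi] at h2
  refine (sum_le_sum h1).trans ?_
  have h2 : ∑ t ∈ T, ∑ i, (if A i t then f t else 0) ≤ ∑ t, ∑ i, if A i t then f t else 0 := by
    refine sum_le_sum_of_subset_of_nonneg (subset_univ _) fun t _ _ => sum_nonneg fun i _ => ?_
    by_cases h3 : A i t
    · simp only [if_pos h3]; exact hf t
    · simp only [if_neg h3]; exact le_refl _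
  refine h2.trans (le_of_eq ?_)
  rw [sum_comm]
  refine sum_congr rfl fun i _ => ?_
  rw [sum_filter]

theorem sum_adj (hsg : ∀ v p q s, sg v p = some s → sg v q = some s → p = q) {c : ℝ}
    (h : ∀ r, ∑ v, 1 / (lam a v (a r v) : ℝ) ≤ c) (j : R × (V × R) × (V × R))
    (T : Finset (R × (V × R) × (V × R))) (hT : ∀ t ∈ T, Adj j t) :
    ∑ t ∈ T, Pr a sg t ≤ 8 * c := by
  classical
  have hs := Pr_symm (a := a) (sg := sg)
  have hr1 : ∀ v, ∑ t with t.1 = j.1 ∧ t.2.1.1 = v, Pr a sg t ≤ c := fun v => by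
    rw [filter_row_first]
    exact sum_row hsg h j.1 v
  have hr2 : ∀ v, ∑ t with t.1 = j.1 ∧ t.2.2.1 = v, Pr a sg t ≤ c := fun v => by
    refine le_trans (le_of_eq ?_) (hr1 v)
    exact filter_symm (Pr a sg) hs (fun t => t.1 = j.1 ∧ t.2.1.1 = v)
  have hs1 : ∀ x : V × R, ∑ t with t.2.1 = x, Pr a sg t ≤ c := fun x => by
    obtain ⟨v, p⟩ := x
    rw [filter_slot_first]
    exact sum_slot hsg h v p
  have hs2 : ∀ x : V × R, ∑ t with t.2.2 = x, Pr a sg t ≤ c := fun x => by
    refine le_trans (le_of_eq ?_) (hs1 x)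
    exact filter_symm (Pr a sg) hs (fun t => t.2.1 = x)
  let A : Fin 8 → R × (V × R) × (V × R) → Prop := fun i t => match i with
    | 0 => t.1 = j.1 ∧ t.2.1.1 = j.2.1.1
    | 1 => t.1 = j.1 ∧ t.2.1.1 = j.2.2.1
    | 2 => t.1 = j.1 ∧ t.2.2.1 = j.2.1.1
    | 3 => t.1 = j.1 ∧ t.2.2.1 = j.2.2.1
    | 4 => t.2.1 = j.2.1
    | 5 => t.2.1 = j.2.2
    | 6 => t.2.2 = j.2.1
    | 7 => t.2.2 = j.2.2
  have h1 := sum_cover (Pr a sg) (Pr_nonneg a sg) A T (fun t ht => by
    rcases hT t ht with h | h | h | h | h | h | h | h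
    · exact ⟨0, h⟩
    · exact ⟨1, h⟩
    · exact ⟨2, h⟩
    · exact ⟨3, h⟩
    · exact ⟨4, h⟩
    · exact ⟨5, h⟩
    · exact ⟨6, h⟩
    · exact ⟨7, h⟩)
  have h2 : ∀ i, (∑ t with A i t, Pr a sg t) ≤ c := by
    intro i
    fin_cases i
    · convert hr1 j.2.1.1
    · convert hr1 j.2.2.1
    · convert hr2 j.2.1.1
    · convert hr2 j.2.2.1
    · convert hs1 j.2.1
    · convert hs1 j.2.2
    · convert hs2 j.2.1
    · convert hs2 j.2.2
  refine h1.trans ((sum_le_sum fun i _ => h2 i).trans (le_of_eq ?_))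
  simp

/-! ### the sample space and the swaps -/

theorem swap_pres {a : R → V → S} {v : V} {p q : R} (h : a q v = a p v) (z : R) :
    a (Equiv.swap p q z) v = a z v := by
  rcases eq_or_ne z p with rfl | h1
  · rw [Equiv.swap_apply_left, h]
  · rcases eq_or_ne z q with rfl | h2
    · rw [Equiv.swap_apply_right, h]
    · rw [Equiv.swap_apply_of_ne_of_ne h1 h2]

/-- The families of permutations which keep the symbols. -/
abbrev Om (a : R → V → S) : Type _ :=
  {π : V → Equiv.Perm R // ∀ v r, a (π v r) v = a r v}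

instance (a : R → V → S) : Nonempty (Om a) := ⟨⟨fun _ => Equiv.refl R, fun _ _ => rfl⟩⟩

/-- The two swaps. -/
def phi (a : R → V → S) (v v' : V) (p q p' q' : R) (π : Om a) : Om a :=
  if h : a q v = a p v ∧ a q' v' = a p' v' then
    ⟨fun u => if u = v then (π.1 v).trans (Equiv.swap p q)
      else if u = v' then (π.1 v').trans (Equiv.swap p' q') else π.1 u, by
      intro u r
      by_cases h1 : u = v
      · subst h1
        simp only [if_true, Equiv.trans_apply]
        rw [swap_pres h.1]
        exact π.2 u r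
      · by_cases h2 : u = v'
        · subst h2
          simp only [if_neg h1, if_true, Equiv.trans_apply]
          rw [swap_pres h.2]
          exact π.2 u r
        · simp only [if_neg h1, if_neg h2]
          exact π.2 u r⟩
  else π

theorem phi_fst {v v' : V} {p q p' q' : R} (h : a q v = a p v) (h' : a q' v' = a p' v')
    (π : Om a) : (phi a v v' p q p' q' π).1 v = (π.1 v).trans (Equiv.swap p q) := by
  unfold phi
  rw [dif_pos ⟨h, h'⟩]
  simp

theorem phi_snd {v v' : V} {p q p' q' : R} (h : a q v = a p v) (h' : a q' v' = a p' v')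
    (hne : v ≠ v') (π : Om a) :
    (phi a v v' p q p' q' π).1 v' = (π.1 v').trans (Equiv.swap p' q') := by
  unfold phi
  rw [dif_pos ⟨h, h'⟩]
  simp [hne.symm]

theorem phi_other {v v' u : V} {p q p' q' : R} (h : a q v = a p v) (h' : a q' v' = a p' v')
    (h1 : u ≠ v) (h2 : u ≠ v') (π : Om a) :
    (phi a v v' p q p' q' π).1 u = π.1 u := by
  unfold phi
  rw [dif_pos ⟨h, h'⟩]
  simp [h1, h2]

/-- The event with index `t`. -/
def Ev (a : R → V → S) (sg : V → R → Option Sec) (t : R × (V × R) × (V × R)) (π : Om a) : Prop :=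
  Valid a sg t ∧ π.1 t.2.1.1 t.1 = t.2.1.2 ∧ π.1 t.2.2.1 t.1 = t.2.2.2

/-- An assignment made by the swaps was there before, if its row and slot are not involved. -/
theorem phi_back {v v' : V} {r p q p' q' : R} (h : a q v = a p v) (h' : a q' v' = a p' v')
    (hne : v ≠ v') {π : Om a} (h1 : π.1 v r = p) (h2 : π.1 v' r = p') {w : V} {r₂ x : R}
    (hr : ¬ (r₂ = r ∧ w = v)) (hr' : ¬ (r₂ = r ∧ w = v')) (hx : ¬ (w = v ∧ x = p))
    (hx' : ¬ (w = v' ∧ x = p')) (h3 : (phi a v v' p q p' q' π).1 w r₂ = x) :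
    π.1 w r₂ = x := by
  by_cases hw : w = v
  · subst hw
    rw [phi_fst h h'] at h3
    simp only [Equiv.trans_apply] at h3
    have h4 : r₂ ≠ r := fun h5 => hr ⟨h5, rfl⟩
    have h5 : x ≠ p := fun h5 => hx ⟨rfl, h5⟩
    have h6 : π.1 w r₂ ≠ p := by
      rw [← h1]
      exact fun h7 => h4 ((π.1 w).injective h7)
    have h7 : π.1 w r₂ ≠ q := by
      intro h8
      rw [h8, Equiv.swap_apply_right] at h3
      exact h5 h3.symm
    rwa [Equiv.swap_apply_of_ne_of_ne h6 h7] at h3
  · by_cases hw' : w = v'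
    · subst hw'
      rw [phi_snd h h' hne] at h3
      simp only [Equiv.trans_apply] at h3
      have h4 : r₂ ≠ r := fun h5 => hr' ⟨h5, rfl⟩
      have h5 : x ≠ p' := fun h5 => hx' ⟨rfl, h5⟩
      have h6 : π.1 w r₂ ≠ p' := by
        rw [← h2]
        exact fun h7 => h4 ((π.1 w).injective h7)
      have h7 : π.1 w r₂ ≠ q' := by
        intro h8
        rw [h8, Equiv.swap_apply_right] at h3
        exact h5 h3.symm
      rwa [Equiv.swap_apply_of_ne_of_ne h6 h7] at h3
    · rwa [phi_other h h' hw hw'] at h3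

theorem phi_inj {v v' : V} {p q p' q' : R} (h : a q v = a p v) (h' : a q' v' = a p' v')
    (hne : v ≠ v') {π π' : Om a}
    (he : phi a v v' p q p' q' π = phi a v v' p q p' q' π') : π = π' := by
  apply Subtype.ext
  funext u
  by_cases h1 : u = v
  · subst h1
    have h2 := phi_fst h h' π
    have h3 := phi_fst h h' π'
    rw [he, h3] at h2
    ext z
    have h4 := congrArg (fun f : Equiv.Perm R => f z) h2
    simp only [Equiv.trans_apply] at h4
    exact ((Equiv.swap p q).injective h4).symm
  · by_cases h1' : u = v'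
    · subst h1'
      have h2 := phi_snd h h' hne π
      have h3 := phi_snd h h' hne π'
      rw [he, h3] at h2
      ext z
      have h4 := congrArg (fun f : Equiv.Perm R => f z) h2
      simp only [Equiv.trans_apply] at h4
      exact ((Equiv.swap p' q').injective h4).symm
    · have h2 := phi_other h h' h1 h1' π
      have h3 := phi_other h h' h1 h1' π'
      rw [he, h3] at h2
      exact h2.symm

open Classical in
theorem lopsided (j : R × (V × R) × (V × R)) (T : Finset (R × (V × R) × (V × R)))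
    (hT : ∀ t ∈ T, ¬ Adj j t) :
    (((av (Ev a sg) T).filter (Ev a sg j)).card : ℝ) ≤
      Pr a sg j * (av (Ev a sg) T).card := by
  by_cases hv : Valid a sg j
  · obtain ⟨r, ⟨v, p⟩, ⟨v', p'⟩⟩ := j
    obtain ⟨hne, hp, hp', -⟩ := id hv
    simp only at hne hp hp'
    set C := univ.filter fun q => a q v = a r v with hC
    set C' := univ.filter fun q => a q v' = a r v' with hC'
    set E := (av (Ev a sg) T).filter (Ev a sg (r, (v, p), (v', p'))) with hE
    have h1 : (C ×ˢ C' ×ˢ E).card ≤ (av (Ev a sg) T).card := by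
      refine card_le_card_of_injOn (fun x => phi a v v' p x.1 p' x.2.1 x.2.2) ?_ ?_
      · rintro ⟨q, q', π⟩ hx
        rw [mem_coe, mem_product, mem_product] at hx
        obtain ⟨hq, hq', hπ⟩ := hx
        simp only at hq hq' hπ
        have hq1 : a q v = a p v := (mem_filter.1 hq).2.trans hp.symm
        have hq2 : a q' v' = a p' v' := (mem_filter.1 hq').2.trans hp'.symm
        obtain ⟨hav, -, h1, h2⟩ := mem_filter.1 hπ
        simp only at h1 h2
        rw [mem_coe, mem_av]
        rintro ⟨r₂, ⟨w, x⟩, ⟨w', x'⟩⟩ ht ⟨hv2, h3, h4⟩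
        simp only at h3 h4
        refine mem_av.1 hav _ ht ⟨hv2, ?_, ?_⟩
        · have hn := hT _ ht
          simp only [Adj] at hn
          refine phi_back hq1 hq2 hne h1 h2 (fun h => hn ?_) (fun h => hn ?_) (fun h => hn ?_)
            (fun h => hn ?_) h3
          · exact Or.inl h
          · exact Or.inr (Or.inl h)
          · exact Or.inr (Or.inr (Or.inr (Or.inr (Or.inl (Prod.ext h.1 h.2)))))
          · exact Or.inr (Or.inr (Or.inr (Or.inr (Or.inr (Or.inl (Prod.ext h.1 h.2))))))
        · have hn := hT _ ht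
          simp only [Adj] at hn
          refine phi_back hq1 hq2 hne h1 h2 (fun h => hn ?_) (fun h => hn ?_) (fun h => hn ?_)
            (fun h => hn ?_) h4
          · exact Or.inr (Or.inr (Or.inl h))
          · exact Or.inr (Or.inr (Or.inr (Or.inl h)))
          · exact Or.inr (Or.inr (Or.inr (Or.inr (Or.inr (Or.inr (Or.inl
              (Prod.ext h.1 h.2)))))))
          · exact Or.inr (Or.inr (Or.inr (Or.inr (Or.inr (Or.inr (Or.inr
              (Prod.ext h.1 h.2)))))))
      · rintro ⟨q, q', π⟩ hx ⟨s, s', π'⟩ hy hxy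
        rw [mem_coe, mem_product, mem_product] at hx hy
        obtain ⟨hq, hq', hπ⟩ := hx
        obtain ⟨hs, hs', hπ'⟩ := hy
        simp only at hq hq' hπ hs hs' hπ' hxy
        have hq1 : a q v = a p v := (mem_filter.1 hq).2.trans hp.symm
        have hq2 : a q' v' = a p' v' := (mem_filter.1 hq').2.trans hp'.symm
        have hs1 : a s v = a p v := (mem_filter.1 hs).2.trans hp.symm
        have hs2 : a s' v' = a p' v' := (mem_filter.1 hs').2.trans hp'.symm
        obtain ⟨-, -, h1, h2⟩ := mem_filter.1 hπ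
        obtain ⟨-, -, h3, h4⟩ := mem_filter.1 hπ'
        simp only at h1 h2 h3 h4
        have e1 : (phi a v v' p q p' q' π).1 v r = q := by
          rw [phi_fst hq1 hq2]
          simp only [Equiv.trans_apply, h1, Equiv.swap_apply_left]
        have e2 : (phi a v v' p s p' s' π').1 v r = s := by
          rw [phi_fst hs1 hs2]
          simp only [Equiv.trans_apply, h3, Equiv.swap_apply_left]
        have e3 : (phi a v v' p q p' q' π).1 v' r = q' := by
          rw [phi_snd hq1 hq2 hne]
          simp only [Equiv.trans_apply, h2, Equiv.swap_apply_left]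
        have e4 : (phi a v v' p s p' s' π').1 v' r = s' := by
          rw [phi_snd hs1 hs2 hne]
          simp only [Equiv.trans_apply, h4, Equiv.swap_apply_left]
        have e5 : q = s := by rw [← e1, ← e2, hxy]
        have e6 : q' = s' := by rw [← e3, ← e4, hxy]
        subst e5 e6
        rw [phi_inj hq1 hq2 hne hxy]
    rw [card_product, card_product] at h1
    have h2 : ((C.card : ℝ) * (C'.card * E.card)) ≤ (av (Ev a sg) T).card := by
      exact_mod_cast h1
    have h3 : (0 : ℝ) < C.card := by exact_mod_cast lam_pos a r v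
    have h4 : (0 : ℝ) < C'.card := by exact_mod_cast lam_pos a r v'
    have h5 : Pr a sg (r, (v, p), (v', p')) = 1 / ((C.card : ℝ) * C'.card) := by
      unfold Pr
      rw [if_pos hv]
      rfl
    rw [h5, one_div, ← div_eq_inv_mul, le_div_iff₀ (by positivity)]
    calc (E.card : ℝ) * (C.card * C'.card) = C.card * (C'.card * E.card) := by ring
      _ ≤ _ := h2
  · have h1 : (av (Ev a sg) T).filter (Ev a sg j) = ∅ := by
      rw [filter_eq_empty_iff]
      exact fun π _ h => hv h.1
    rw [h1, card_empty, Nat.cast_zero]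
    exact mul_nonneg (Pr_nonneg a sg j) (Nat.cast_nonneg _)

/-- The assignment lemma. -/
theorem assign (hsg : ∀ v p q s, sg v p = some s → sg v q = some s → p = q)
    (h : ∀ r, ∑ v, 1 / (lam a v (a r v) : ℝ) ≤ 1 / 32) :
    ∃ π : V → Equiv.Perm R, (∀ v r, a (π v r) v = a r v) ∧
      ∀ r v v' s, v ≠ v' → ¬ (sg v (π v r) = some s ∧ sg v' (π v' r) = some s) := by
  classical
  have hP1 : ∀ j, Pr a sg j ≤ 1 / 4 := by
    intro j
    unfold Pr
    split
    · next hv =>
      have h1 : 1 / (lam a j.2.1.1 (a j.1 j.2.1.1) : ℝ) ≤ 1 / 32 :=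
        (single_le_sum (f := fun v => 1 / (lam a v (a j.1 v) : ℝ))
          (fun v _ => by positivity) (mem_univ j.2.1.1)).trans (h j.1)
      have h2 : (0 : ℝ) < lam a j.2.1.1 (a j.1 j.2.1.1) := by exact_mod_cast lam_pos a _ _
      have h3 : (1 : ℝ) ≤ lam a j.2.2.1 (a j.1 j.2.2.1) := by
        exact_mod_cast lam_pos a j.1 j.2.2.1
      have h4 : 1 / ((lam a j.2.1.1 (a j.1 j.2.1.1) : ℝ) * lam a j.2.2.1 (a j.1 j.2.2.1)) ≤
          1 / (lam a j.2.1.1 (a j.1 j.2.1.1) : ℝ) := by
        refine one_div_le_one_div_of_le h2 ?_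
        exact le_mul_of_one_le_right h2.le h3
      linarith
    · norm_num
  obtain ⟨π, hπ⟩ := lll (B := Ev a sg) Adj (Pr a sg) (Pr_nonneg a sg) hP1 lopsided
    (fun j T hT => (sum_adj hsg h j T hT).trans (by norm_num))
  refine ⟨π.1, π.2, fun r v v' s hne hs => ?_⟩
  exact hπ (r, (v, π.1 v r), (v', π.1 v' r)) ⟨⟨hne, π.2 v r, π.2 v' r, s, hs.1, hs.2⟩, rfl, rfl⟩

end Assign

end Pool.Agent.RL84
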